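import Mathlib

namespace Pool.Agent.Results.MP_472d46_al.Exists

/-- o-conjugacy in a monoid S (so that S with identity adjoined is S itself) -/
def OConj {S : Type 1} [Monoid S] (a b : S) : Prop :=
  ∃ g h : S, a * g = g * b ∧ b * h = h * a

/-- the identity and the injective maps that move every ordinal up -/
def M : Submonoid (Function.End Ordinal.{0}) where
  carrier := {f | Function.Injective f ∧ (f = 1 ∨ ∀ x, x < f x)}
  one_mem' := ⟨Function.injective_id, Or.inl rfl⟩
  mul_mem' := by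
    rintro f g ⟨hf, rfl | hf'⟩ ⟨hg, rfl | hg'⟩
    · exact ⟨hf, Or.inl rfl⟩
    · exact ⟨hg, Or.inr hg'⟩
    · exact ⟨hf, Or.inr hf'⟩
    · exact ⟨hf.comp hg, Or.inr fun x => (hg' x).trans (hf' (g x))⟩

open Classical in
noncomputable def G (a b : Ordinal.{0} → Ordinal.{0}) (x : Ordinal.{0}) : Ordinal.{0} :=
  if h : ∃ y, y < x ∧ b y = x then a (G a b h.choose)
  else Order.succ (max (⨆ n : ℕ, b^[n] x) (⨆ p : ℕ × Set.Iio x, a^[p.1] (G a b p.2.1)))
termination_by x
decreasing_by
  · exact h.choose_spec.1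
  · exact p.2.2

section

variable {a b : Ordinal.{0} → Ordinal.{0}}

theorem G_b (hb : Function.Injective b) (hb' : ∀ x, x < b x) (y : Ordinal.{0}) :
    G a b (b y) = a (G a b y) := by
  have h : ∃ z, z < b y ∧ b z = b y := ⟨y, hb' y, rfl⟩
  rw [G, dif_pos h, hb h.choose_spec.2]

theorem G_src {x : Ordinal.{0}} (h : ¬ ∃ y, y < x ∧ b y = x) :
    (∀ n, b^[n] x < G a b x) ∧ ∀ n y, y < x → a^[n] (G a b y) < G a b x := by
  rw [G, dif_neg h]
  refine ⟨fun n => Order.lt_succ_iff.2 (le_max_of_le_left ?_),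
    fun n y hy => Order.lt_succ_iff.2 (le_max_of_le_right ?_)⟩
  · exact Ordinal.le_iSup (fun n : ℕ => b^[n] x) n
  · exact Ordinal.le_iSup (fun p : ℕ × Set.Iio x => a^[p.1] (G a b p.2.1)) (n, ⟨y, hy⟩)

theorem G_up (ha' : ∀ x, x < a x) (hb : Function.Injective b) (hb' : ∀ x, x < b x)
    (x : Ordinal.{0}) : ∀ n, b^[n] x < G a b x := by
  induction x using WellFoundedLT.induction with
  | ind x ih =>
    by_cases h : ∃ y, y < x ∧ b y = x
    · obtain ⟨y, hy, rfl⟩ := h
      intro n
      rw [G_b hb hb', ← Function.iterate_succ_apply]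
      exact (ih y hy _).trans (ha' _)
    · exact (G_src h).1

theorem lt_iter (ha' : ∀ x, x < a x) (n : ℕ) (x : Ordinal.{0}) : x < a^[n + 1] x := by
  induction n with
  | zero => exact ha' x
  | succ n ih => rw [Function.iterate_succ_apply']; exact ih.trans (ha' _)

theorem G_ne (ha' : ∀ x, x < a x) (hb : Function.Injective b) (hb' : ∀ x, x < b x)
    {x : Ordinal.{0}} (hx : ¬ ∃ y, y < x ∧ b y = x) (y : Ordinal.{0}) :
    ∀ n, a^[n + 1] (G a b y) ≠ G a b x := by
  induction y using WellFoundedLT.induction with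
  | ind y ih =>
    intro n
    by_cases h : ∃ z, z < y ∧ b z = y
    · obtain ⟨z, hz, rfl⟩ := h
      rw [G_b hb hb', ← Function.iterate_succ_apply]
      exact ih z hz _
    · rcases lt_trichotomy y x with h1 | rfl | h1
      · exact ((G_src hx).2 _ y h1).ne
      · exact (lt_iter ha' n _).ne'
      · exact (((G_src h).2 0 x h1).trans (lt_iter ha' n _)).ne'

theorem G_inj (ha : Function.Injective a) (ha' : ∀ x, x < a x) (hb : Function.Injective b)
    (hb' : ∀ x, x < b x) : Function.Injective (G a b) := by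
  intro x
  induction x using WellFoundedLT.induction with
  | ind x ih =>
    intro y hxy
    by_cases h : ∃ z, z < x ∧ b z = x
    · obtain ⟨z, hz, rfl⟩ := h
      by_cases h' : ∃ w, w < y ∧ b w = y
      · obtain ⟨w, -, rfl⟩ := h'
        rw [G_b hb hb', G_b hb hb'] at hxy
        rw [ih z hz (ha hxy)]
      · rw [G_b hb hb'] at hxy
        exact absurd hxy (G_ne ha' hb hb' h' z 0)
    · by_cases h' : ∃ w, w < y ∧ b w = y
      · obtain ⟨w, -, rfl⟩ := h'
        rw [G_b hb hb'] at hxy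
        exact absurd hxy.symm (G_ne ha' hb hb' h w 0)
      · rcases lt_trichotomy y x with h1 | h1 | h1
        · exact absurd hxy ((G_src h).2 0 y h1).ne'
        · exact h1.symm
        · exact absurd hxy ((G_src h').2 0 x h1).ne

end

theorem half (a b : M) (ha : a ≠ 1) (hb : b ≠ 1) : ∃ g : M, a * g = g * b := by
  have ha' := a.2.2.resolve_left fun h => ha (Subtype.ext h)
  have hb' := b.2.2.resolve_left fun h => hb (Subtype.ext h)
  exact ⟨⟨G a.1 b.1, G_inj a.2.1 ha' b.2.1 hb', Or.inr fun x => G_up ha' b.2.1 hb' x 0⟩,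
    Subtype.ext (funext fun y => (G_b b.2.1 hb' y).symm)⟩

theorem one_left (b g : M) (h : 1 * g = g * b) : b = 1 :=
  Subtype.ext (funext fun y => (g.2.1 (congrFun (congrArg Subtype.val h) y)).symm)

theorem conj_iff (a b : M) : OConj a b ↔ (a = 1 ↔ b = 1) := by
  constructor
  · rintro ⟨g, h, h1, h2⟩
    exact ⟨fun e => one_left b g (e ▸ h1), fun e => one_left a h (e ▸ h2)⟩
  · intro h
    by_cases ha : a = 1
    · rw [ha, h.1 ha]; exact ⟨1, 1, rfl, rfl⟩
    · have hb : b ≠ 1 := fun e => ha (h.2 e)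
      obtain ⟨g, hg⟩ := half a b ha hb
      obtain ⟨k, hk⟩ := half b a hb ha
      exact ⟨g, k, hg, hk⟩

theorem mul_one_iff (a b : M) : a * b = 1 ↔ a = 1 ∧ b = 1 := by
  refine ⟨fun h => ?_, fun h => by rw [h.1, h.2, one_mul]⟩
  by_cases ha : a = 1
  · rw [ha, one_mul] at h; exact ⟨ha, h⟩
  by_cases hb : b = 1
  · rw [hb, mul_one] at h; exact ⟨h, hb⟩
  have ha' := a.2.2.resolve_left fun h => ha (Subtype.ext h)
  have hb' := b.2.2.resolve_left fun h => hb (Subtype.ext h)
  have : a.1 (b.1 0) = 0 := congrFun (congrArg Subtype.val h) 0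
  exact absurd this ((hb' 0).trans (ha' _)).ne'

theorem result : ∃ (S : Type 1) (_ : Monoid S) (c : Con S),
    (∀ a b : S, c a b ↔ OConj a b) ∧
      ∃ x y z : c.Quotient, x * z = y * z ∧ z * x = z * y ∧ x ≠ y := by
  let c : Con M :=
    { r := fun a b => a = 1 ↔ b = 1
      iseqv := ⟨fun _ => Iff.rfl, Iff.symm, Iff.trans⟩
      mul' := fun h1 h2 => by rw [mul_one_iff, mul_one_iff, h1, h2] }
  let s : M := ⟨Order.succ, Order.succ_injective, Or.inr Order.lt_succ⟩
  have hs : s ≠ 1 := fun h =>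
    (Order.lt_succ (0 : Ordinal.{0})).ne' (congrFun (congrArg Subtype.val h) 0)
  refine ⟨M, inferInstance, c, fun a b => (conj_iff a b).symm, ((1 : M) : c.Quotient),
    (s : c.Quotient), (s : c.Quotient), ?_, ?_, ?_⟩
  · rw [← Con.coe_mul, ← Con.coe_mul, Con.eq]
    change 1 * s = 1 ↔ s * s = 1
    simp [mul_one_iff]
  · rw [← Con.coe_mul, ← Con.coe_mul, Con.eq]
    change s * 1 = 1 ↔ s * s = 1
    simp [mul_one_iff]
  · rw [Ne, Con.eq]
    exact fun h => hs (h.1 rfl)

end Pool.Agent.Results.MP_472d46_al.Exists
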